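import Pool.Agent.W295.PR.Stm

set_option autoImplicit false

namespace Pool.Agent.W718.PR.CHN

open Pool.Agent.W295.PR

theorem comm_cen {A : Type} [Group A] (U V g d : A) (hU : ∀ z, U * z = z * U)
    (hV : ∀ z, V * z = z * V) :
    U * g * (V * d) * (U * g)⁻¹ * (V * d)⁻¹ = g * d * g⁻¹ * d⁻¹ := by
  have e1 : U * g * (V * d) = (U * V) * (g * d) := by
    calc U * g * (V * d) = U * (g * V) * d := by group
      _ = U * (V * g) * d := by rw [hV g]
      _ = _ := by group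
  have e2 : V * d * (U * g) = (U * V) * (d * g) := by
    calc V * d * (U * g) = V * (d * U) * g := by group
      _ = V * (U * d) * g := by rw [hU d]
      _ = (V * U) * (d * g) := by group
      _ = _ := by rw [hU V]
  have e3 : (U * g)⁻¹ * (V * d)⁻¹ = ((U * V) * (d * g))⁻¹ := by
    rw [← e2, mul_inv_rev (V * d) (U * g)]
  have hc : ∀ z, (U * V) * z = z * (U * V) := by
    intro z
    rw [mul_assoc, hV z, ← mul_assoc, hU z, mul_assoc]
  calc U * g * (V * d) * (U * g)⁻¹ * (V * d)⁻¹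
      = (U * g * (V * d)) * ((U * g)⁻¹ * (V * d)⁻¹) := by group
    _ = ((U * V) * (g * d)) * ((U * V) * (d * g))⁻¹ := by rw [e1, e3]
    _ = (U * V) * ((g * d) * (d * g)⁻¹) * (U * V)⁻¹ := by group
    _ = ((g * d) * (d * g)⁻¹) * (U * V) * (U * V)⁻¹ := by rw [hc]
    _ = g * d * g⁻¹ * d⁻¹ := by group

theorem comm_aux {G : Type} [Group G] (h : S_LCS) (Γ : Subgroup G) (i : ℕ) :
    ∀ x ∈ lcs G i ⊔ Γ, ∀ y ∈ lcs G i ⊔ Γ, x * y * x⁻¹ * y⁻¹ ∈ lcs G (i + 1) ⊔ Γ := by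
  intro x hx y hy
  have hn : (lcs G i).Normal := inferInstance
  have hn1 : (lcs G (i + 1)).Normal := inferInstance
  obtain ⟨u, hu, g, hg, rfl⟩ := Subgroup.mem_sup_of_normal_left.mp hx
  obtain ⟨v, hv, d, hd, rfl⟩ := Subgroup.mem_sup_of_normal_left.mp hy
  have cen : ∀ w ∈ lcs G i, ∀ z : G ⧸ lcs G (i + 1), (w : G ⧸ lcs G (i + 1)) * z =
      z * (w : G ⧸ lcs G (i + 1)) := by
    intro w hw z
    obtain ⟨z, rfl⟩ := QuotientGroup.mk_surjective z
    have h1 : w * z * w⁻¹ * z⁻¹ ∈ lcs G (i + 0 + 1) := h G i 0 w hw z (by simp)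
    have h2 : ((w * z * w⁻¹ * z⁻¹ : G) : G ⧸ lcs G (i + 1)) = 1 :=
      (QuotientGroup.eq_one_iff _).mpr h1
    have h3 : (w : G ⧸ lcs G (i + 1)) * (z : G ⧸ lcs G (i + 1)) *
        (w : G ⧸ lcs G (i + 1))⁻¹ * (z : G ⧸ lcs G (i + 1))⁻¹ = 1 := h2
    have h4 := mul_inv_eq_one.mp h3
    have h5 := mul_inv_eq_iff_eq_mul.mp h4
    exact h5
  have key : ((u * g * (v * d) * (u * g)⁻¹ * (v * d)⁻¹ : G) : G ⧸ lcs G (i + 1)) =
      ((g * d * g⁻¹ * d⁻¹ : G) : G ⧸ lcs G (i + 1)) :=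
    comm_cen (u : G ⧸ lcs G (i + 1)) v g d (cen u hu) (cen v hv)
  have k2 : (u * g * (v * d) * (u * g)⁻¹ * (v * d)⁻¹) * (g * d * g⁻¹ * d⁻¹)⁻¹ ∈
      lcs G (i + 1) := by
    rw [← QuotientGroup.eq_one_iff]
    have : (((u * g * (v * d) * (u * g)⁻¹ * (v * d)⁻¹) * (g * d * g⁻¹ * d⁻¹)⁻¹ : G) :
        G ⧸ lcs G (i + 1)) = ((u * g * (v * d) * (u * g)⁻¹ * (v * d)⁻¹ : G) :
        G ⧸ lcs G (i + 1)) * ((g * d * g⁻¹ * d⁻¹ : G) : G ⧸ lcs G (i + 1))⁻¹ := rfl
    rw [this, key, mul_inv_cancel]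
  have k3 : g * d * g⁻¹ * d⁻¹ ∈ Γ :=
    Γ.mul_mem (Γ.mul_mem (Γ.mul_mem hg hd) (Γ.inv_mem hg)) (Γ.inv_mem hd)
  have k4 := (lcs G (i + 1) ⊔ Γ).mul_mem (le_sup_left (a := lcs G (i + 1)) (b := Γ) k2)
    (le_sup_right (a := lcs G (i + 1)) (b := Γ) k3)
  rwa [inv_mul_cancel_right] at k4

theorem main (h : S_LCS) : S_CHN := by
  intro G _ _ _ N
  have hmono : ∀ i, HH N (i + 1) ≤ HH N i := by
    intro i
    apply Subgroup.topologicalClosure_mono
    exact sup_le_sup_right ((Subgroup.lowerCentralSeries_antitone _) (Nat.le_succ i)) _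
  have hΓ : ∀ i, N.Γ ≤ HH N i := fun i =>
    le_trans le_sup_right (Subgroup.le_topologicalClosure _)
  refine ⟨?_, fun i => Subgroup.isClosed_topologicalClosure _, hΓ, hmono, ?_, ?_, ?_⟩
  · rw [eq_top_iff]
    intro x _
    apply Subgroup.le_topologicalClosure
    apply (le_sup_left : lcs G 0 ≤ lcs G 0 ⊔ N.Γ)
    simp
  · have hnil := N.nil
    obtain ⟨s, hs⟩ := Subgroup.nilpotent_iff_lowerCentralSeries.mp hnil
    refine ⟨s, ?_⟩
    have : lcs G s ⊔ N.Γ = N.Γ := by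
      show (⊤ : Subgroup G).lowerCentralSeries s ⊔ N.Γ = N.Γ
      rw [hs, bot_sup_eq]
    show (lcs G s ⊔ N.Γ).topologicalClosure = N.Γ
    rw [this]
    apply le_antisymm
    · exact Subgroup.topologicalClosure_minimal _ le_rfl N.closed
    · exact Subgroup.le_topologicalClosure _
  · intro i x hx y hy
    have hcont : Continuous (Function.uncurry fun (x y : G) => x * y * x⁻¹ * y⁻¹) := by
      show Continuous fun p : G × G => p.1 * p.2 * p.1⁻¹ * p.2⁻¹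
      fun_prop
    have hx' : x ∈ closure ((lcs G i ⊔ N.Γ : Subgroup G) : Set G) := hx
    have hy' : y ∈ closure ((lcs G i ⊔ N.Γ : Subgroup G) : Set G) := hy
    have := map_mem_closure₂ hcont hx' hy' (u := ((lcs G (i + 1) ⊔ N.Γ : Subgroup G) : Set G))
      (fun a ha b hb => comm_aux h N.Γ i a ha b hb)
    exact this
  · intro i
    have hc := N.compact
    have hs : Function.Surjective (Subgroup.quotientMapOfLE (hΓ i)) := by
      intro y
      obtain ⟨g, rfl⟩ := QuotientGroup.mk_surjective y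
      exact ⟨QuotientGroup.mk g, rfl⟩
    have hcont : Continuous (Subgroup.quotientMapOfLE (hΓ i)) := by
      rw [(QuotientGroup.isQuotientMap_mk (N := N.Γ)).continuous_iff]
      exact QuotientGroup.continuous_mk
    exact hs.compactSpace hcont

end Pool.Agent.W718.PR.CHN
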